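import Mathlib
import Pool.Agent.H24.LVP.All
import Pool.Agent.H79.EW.All
import Pool.Agent.H26.AS.Fin

/-!
# Vinogradov's mean value at the critical exponent above the square root barrier

For `k ≥ 3` and `K = k (k + 1) / 2` there is `c > 0`, depending only on `k`, such that for every
`δ > 0` there is `C` with, for all `N ≥ 1` and all `t` with
`N^(1/2) exp ((log N)^(1/2 + δ)) ≤ t ≤ N`, the exponential sum
`f_N(α) = ∑_{n ≤ N} e(α_1 n + … + α_k n^k)` satisfies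

* `measure {|f_N| ≥ t} ≤ C ρ N^K t^(-2K)`,
* `∫_{|f_N| ≥ t} |f_N|^(2K) = 𝔖 ℑ N^K + O(C ρ N^K)`, with the convergent singular series `𝔖` and
  singular integral `ℑ` at the critical exponent,

where `ρ = (t/N)^(c x^2)` and `x = log (t / N^(1/2)) / log N`. For `t = N^(1/2 + δ)` this is a power
saving; for `t` at the lower end it is `exp (- c' (log N)^(2δ))`.
-/

set_option autoImplicit false

open Finset MeasureTheory

namespace Pool.Agent.Results.MP_e21eee_nt.AboveSquareRoot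

/-- `f_N(α) = ∑_{n=1}^N e(α_1 n + … + α_k n^k)` for `α ∈ (ℝ/ℤ)^k` -/
noncomputable def weylSum (k N : ℕ) (α : Fin k → UnitAddCircle) : ℂ :=
  ∑ n ∈ Finset.Icc 1 N,
    ((AddCircle.toCircle (∑ j : Fin k, (n ^ (j.val + 1)) • α j) : Circle) : ℂ)

/-- the complete sum `q⁻¹ ∑_{z mod q} e((a_1 z + … + a_k z^k) / q)` -/
noncomputable def completeSum {k : ℕ} (q : ℕ) (a : Fin k → ℕ) : ℂ :=
  (∑ z ∈ range q,
    Complex.exp (2 * Real.pi * Complex.I * ((∑ i : Fin k, a i * z ^ (i.val + 1) : ℕ) : ℂ) / q)) / q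

/-- the `a ∈ [0, q)^k` with `gcd(q, a_1, …, a_k) = 1` -/
def reduced (k q : ℕ) : Finset (Fin k → ℕ) :=
  (Fintype.piFinset fun _ : Fin k => range q).filter fun a =>
    Nat.gcd q (Finset.univ.gcd a) = 1

/-- the term of the singular series with denominator `q` -/
noncomputable def seriesTerm (k q : ℕ) : ℝ := ∑ a ∈ reduced k q, ‖completeSum q a‖ ^ (k * (k + 1))

/-- the integral `∫_0^1 e(γ_1 x + … + γ_k x^k) dx` -/
noncomputable def oscillatory {k : ℕ} (γ : Fin k → ℝ) : ℂ :=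
  ∫ x in (0 : ℝ)..1,
    Complex.exp (2 * Real.pi * Complex.I * ((∑ i : Fin k, γ i * x ^ (i.val + 1) : ℝ) : ℂ))

/-- the saving `(t/N)^(c x^2)` at the level `t`, where `x = log (t / N^(1/2)) / log N` -/
noncomputable def saving (c : ℝ) (N : ℕ) (t : ℝ) : ℝ :=
  (t / N) ^ (c * (Real.log (t / Real.sqrt N) / Real.log N) ^ 2)

/-- Level sets and asymptotic formula at the critical exponent for all levels `t` above
`N^(1/2) exp ((log N)^(1/2 + δ))`. -/
theorem result : ∀ k : ℕ, 3 ≤ k →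
    Summable (fun q : ℕ => seriesTerm k (q + 1)) ∧
    Integrable (fun γ : Fin k → ℝ => ‖oscillatory γ‖ ^ (k * (k + 1))) ∧
    ∃ c : ℝ, 0 < c ∧ ∀ δ : ℝ, 0 < δ → ∃ C : ℝ, ∀ (N : ℕ) (t : ℝ), 1 ≤ N →
      Real.sqrt N * Real.exp (Real.log N ^ (1 / 2 + δ)) ≤ t → t ≤ N →
      (volume : Measure (Fin k → UnitAddCircle)).real {α | t ≤ ‖weylSum k N α‖} *
        t ^ (k * (k + 1)) ≤ C * (N : ℝ) ^ (k * (k + 1) / 2) * saving c N t ∧
      |(∫ α in {α : Fin k → UnitAddCircle | t ≤ ‖weylSum k N α‖},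
          ‖weylSum k N α‖ ^ (k * (k + 1))) -
        (∑' q : ℕ, seriesTerm k (q + 1)) *
          (∫ γ : Fin k → ℝ, ‖oscillatory γ‖ ^ (k * (k + 1))) * (N : ℝ) ^ (k * (k + 1) / 2)| ≤
        C * (N : ℝ) ^ (k * (k + 1) / 2) * saving c N t := by
  intro k hk
  have h := Pool.Agent.H26.AS.final Pool.Agent.H24.CL.rPF Pool.Agent.H24.CL.rMP
    (Pool.Agent.H79.EH.fi_of_see (fun L => L) Pool.Agent.H26.AS.gain_id Pool.Agent.H79.EW.wSEE)
    Pool.Agent.H24.LVP.aLY Pool.Agent.H24.LVP.aAS k hk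
  have h1 : ∀ q : ℕ, Pool.Agent.H24.LV.st k q = seriesTerm k q := by
    intro q
    unfold Pool.Agent.H24.LV.st seriesTerm
    rw [← Pool.Agent.H24.LVP.reduced_eq, Pool.Agent.H24.LVP.KN_dbl]
    exact Finset.sum_congr rfl fun a _ => by rw [Pool.Agent.H24.LVP.Sq_eq]; rfl
  have h2 : ∀ γ : Fin k → ℝ, Pool.Agent.H24.LV.vI γ = oscillatory γ :=
    fun γ => Pool.Agent.H24.LVP.vI_eq γ
  simp_rw [h1, h2] at h
  exact h

end Pool.Agent.Results.MP_e21eee_nt.AboveSquareRoot
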