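import Mathlib
import Pool.Agent.H79.EW.All

/-!
# Vinogradov's critical mean value up to the factor `(1 + log N)^(1/2)`

For `k ≥ 3` and `K = k (k + 1) / 2` there is `C` such that
`J_{K,k}(N) ≤ C N^K (1 + log N)^(1/2)` for all `N ≥ 1`.
-/

set_option autoImplicit false

open Finset MeasureTheory

namespace Pool.Agent.Results.MP_e21eee_nt.PowerOfLog

/-- The pairs `(x, y)` of `s`-tuples in `[1, N]` whose `j`-th power sums agree for `j = 1, …, k`;
their number is `J_{s,k}(N)`. -/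
def solutions (s k N : ℕ) : Finset ((Fin s → ℕ) × (Fin s → ℕ)) :=
  ((Fintype.piFinset fun _ : Fin s => Finset.Icc 1 N) ×ˢ
    (Fintype.piFinset fun _ : Fin s => Finset.Icc 1 N)).filter
    (fun p => ∀ j : Fin k, ∑ i, p.1 i ^ (j.val + 1) = ∑ i, p.2 i ^ (j.val + 1))

/-- The mean value at the critical exponent `K = k (k + 1) / 2`, `k ≥ 3`, up to the factor
`(1 + log N)^(1/2)`. -/
theorem result : ∀ k : ℕ, 3 ≤ k → ∃ C : ℝ, ∀ N : ℕ, 1 ≤ N →
    ((solutions (k * (k + 1) / 2) k N).card : ℝ) ≤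
      C * (N : ℝ) ^ (k * (k + 1) / 2) * (1 + Real.log N) ^ (1 / 2 : ℝ) :=
  Pool.Agent.H79.EW.closed

end Pool.Agent.Results.MP_e21eee_nt.PowerOfLog
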