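import Mathlib
import Pool.Agent.H22.VM.Final

/-!
# Vinogradov's mean value theorem without loss below the critical exponent

For all `s < k (k + 1) / 2` we have `J_{s,k}(N) ≤ C N ^ s` with `C = C(s, k)`, for all `N ≥ 1`.

The proof has two stages, both for finite systems of functions with a translation-dilation
invariance modulo powers of a prime `p > k` (the definitions are in `Pool.Agent.H22.VM.Defs`, the
statements of all steps in `Pool.Agent.H22.VM.Targets`, the assembly in
`Pool.Agent.H22.VM.Final`).

* Theorem A: flat decoupling at scale `p ^ n` for exponents `2 s` slightly below the critical one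
  holds with a loss `exp (C n ^ γ)`, `γ < 1`. The bilinear recursion of nested efficient
  congruencing is run once, down to bounded scale, with a potential function `ρ_l b ^ γ`; below the
  critical exponent this potential gains a constant factor in each step.
* Theorem B: for bounded coefficients the square function of the functions of residue classes has
  small variance (the system in degrees one and two has no off-diagonal solutions `x - y = x' - y'`,
  `x ^ 2 - y ^ 2 = x' ^ 2 - y' ^ 2`). This stops the recursion early and bounds the loss at the
  exponent `s` by a power `γ < 1` of the loss at a slightly larger exponent `s'`. A chain of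
  exponents then removes the loss.
-/

set_option autoImplicit false

open Finset

namespace Pool.Agent.Results.MP_e21eee_nt.SubcriticalMeanValue

/-- The pairs `(x, y)` of `s`-tuples in `[1, N]` whose `j`-th power sums agree for `j = 1, …, k`;
their number is `J_{s,k}(N)`. -/
def solutions (s k N : ℕ) : Finset ((Fin s → ℕ) × (Fin s → ℕ)) :=
  ((Fintype.piFinset fun _ : Fin s => Finset.Icc 1 N) ×ˢ
    (Fintype.piFinset fun _ : Fin s => Finset.Icc 1 N)).filter
    (fun p => ∀ j : Fin k, ∑ i, p.1 i ^ (j.val + 1) = ∑ i, p.2 i ^ (j.val + 1))

/-- `J_{s,k}(N) ≤ C N ^ s` for all `s < k (k + 1) / 2`. -/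
theorem result : ∀ s k : ℕ, 1 ≤ s → 1 ≤ k → 2 * s < k * (k + 1) → ∃ C : ℝ, ∀ N : ℕ, 1 ≤ N →
    ((solutions s k N).card : ℝ) ≤ C * (N : ℝ) ^ s := by
  intro s k hs hk hsk
  exact Pool.Agent.H22.VM.t_FN s k hs hk hsk

end Pool.Agent.Results.MP_e21eee_nt.SubcriticalMeanValue
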