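import Mathlib
import Pool.Agent.H24.CL.AllK
import Pool.Agent.H24.CLK.Res

/-!
# The weak type form of the critical Vinogradov mean value, without loss

For `k ≥ 3` and `K = k (k + 1) / 2` there is `C` such that for all `N ≥ 1` and all `t > 0` the
measure of the set of `α ∈ (ℝ/ℤ)^k` with `|f_N(α)| ≥ t`,
`f_N(α) = ∑_{n ≤ N} e(α_1 n + … + α_k n^k)`, is at most `C N^K t^(-2K)`.
-/

set_option autoImplicit false

open Finset MeasureTheory

namespace Pool.Agent.Results.MP_e21eee_nt.WeakType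

/-- `f_N(α) = ∑_{n=1}^N e(α_1 n + … + α_k n^k)` for `α ∈ (ℝ/ℤ)^k` -/
noncomputable def weylSum (k N : ℕ) (α : Fin k → UnitAddCircle) : ℂ :=
  ∑ n ∈ Finset.Icc 1 N,
    ((AddCircle.toCircle (∑ j : Fin k, (n ^ (j.val + 1)) • α j) : Circle) : ℂ)

/-- The weak type estimate at the critical exponent `K = k (k + 1) / 2`, `k ≥ 3`. -/
theorem result : ∀ k : ℕ, 3 ≤ k → ∃ C : ℝ, ∀ (N : ℕ) (t : ℝ), 1 ≤ N → 0 < t →
    (volume : Measure (Fin k → UnitAddCircle)).real {α | t ≤ ‖weylSum k N α‖} *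
      t ^ (k * (k + 1)) ≤ C * (N : ℝ) ^ (k * (k + 1) / 2) := by
  intro k hk
  obtain ⟨C, h⟩ := Pool.Agent.H24.CLK.final Pool.Agent.H24.CL.kIT Pool.Agent.H24.CL.kFI
    Pool.Agent.H24.CL.rPF Pool.Agent.H24.CL.rMP k hk
  exact ⟨C, fun N t hN ht => (h N hN).1 t ht⟩

end Pool.Agent.Results.MP_e21eee_nt.WeakType
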